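import Pool.Agent.MD.L.FixT
import Pool.Agent.MD.L.Sq

/-!
# TF2/D-Rel4: the relation of the dihedral group of order eight

`b = X² - a Y²` is the norm of `α = X + Y √a`, `Ma = K(√a, √α)`, and `β = 2 (X + √b)`,
`Mb = K(√b, √β)` (`√β = √α + √α'`).  If `α` is a local square at the places over `T`, then
`[Ma] + [K(√b)] = [Mb] + [K(√a)]` (equality of marks).

Method: for an embedding `φ` of `K` fixed by `U` choose `s² = φ a`, `r² = φ X + φ Y s`,
`r'² = φ X - φ Y s`, `t = r r'` (so `t² = φ b`).  All numbers of fixed embeddings over `φ` are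
determined by one element `g` of `U` (`d4_gen`), which maps `(s, r, r')` to `(s, ± r, ± r')` or to
`(-s, ± r', ± r)`.
-/

namespace Pool.Agent.TF2

open NumberField IsDedekindDomain Pool.Agent.HWR Pool.Agent.QD Pool.Agent.H73.DU
  Pool.Agent.H73.AL Pool.Agent.LD Pool.Agent.MD

open scoped Classical in
private theorem v4_gen {K F : Type} [Field K] [Field F] [Algebra K F] {b : K}
    (hb : ¬ IsSquare b) {θ : F} (hθ : θ ^ 2 = algebraMap K F b)
    (hd : Module.finrank K F = 2) (x : F) :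
    ∃ α β : K, x = algebraMap K F α + algebraMap K F β * θ := by
  have hθK : ∀ c : K, algebraMap K F c ≠ θ := by
    intro c hc
    apply hb
    refine ⟨c, ?_⟩
    apply (algebraMap K F).injective
    rw [← hθ, ← hc, map_mul, pow_two]
  have hli : LinearIndependent K ![(1 : F), θ] := by
    rw [LinearIndependent.pair_iff]
    intro α β h
    have hβ : β = 0 := by
      by_contra hne
      apply hθK (-(β⁻¹ * α))
      rw [Algebra.smul_def, Algebra.smul_def, mul_one] at h
      have h1 : algebraMap K F β ≠ 0 := by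
        rwa [Ne, map_eq_zero]
      rw [map_neg, map_mul, map_inv₀]
      field_simp
      linear_combination -h
    refine ⟨?_, hβ⟩
    rw [hβ, zero_smul, add_zero, Algebra.smul_def, mul_one, map_eq_zero] at h
    exact h
  have hspan := hli.span_eq_top_of_card_eq_finrank (by simp [hd])
  have hx : x ∈ Submodule.span K (Set.range ![(1 : F), θ]) := by
    rw [hspan]
    trivial
  rw [Matrix.range_cons, Matrix.range_cons, Matrix.range_empty, Set.union_empty,
    Set.singleton_union, Submodule.mem_span_pair] at hx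
  obtain ⟨α, β, h⟩ := hx
  refine ⟨α, β, ?_⟩
  rw [← h, Algebra.smul_def, Algebra.smul_def, mul_one]

private theorem v4_card {K F : Type} [Field K] [NumberField K] [Field F] [NumberField F]
    [Algebra K F] (hd : Module.finrank K F = 2) (φ : K →+* AlgebraicClosure ℚ) :
    Nat.card {ψ : F →+* AlgebraicClosure ℚ // ψ.comp (algebraMap K F) = φ} = 2 := by
  letI : Algebra K (AlgebraicClosure ℚ) := φ.toAlgebra
  have : FiniteDimensional K F := Module.finite_of_finrank_pos (by rw [hd]; norm_num)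
  have h := AlgHom.card K F (AlgebraicClosure ℚ)
  rw [hd] at h
  rw [← h, ← Nat.card_eq_fintype_card]
  refine Nat.card_congr
    { toFun := fun ψ => { ψ.1 with commutes' := fun r => RingHom.congr_fun ψ.2 r }
      invFun := fun ψ => ⟨ψ.toRingHom, RingHom.ext fun r => ψ.commutes r⟩
      left_inv := fun ψ => rfl
      right_inv := fun ψ => rfl }

private noncomputable def v4_rst {K F : Type} [Field K] [Field F] (ι : K →+* F)
    (U : Subgroup GQ) (ψ : fx (F →+* AlgebraicClosure ℚ) U) :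
    fx (K →+* AlgebraicClosure ℚ) U :=
  ⟨(ψ : F →+* AlgebraicClosure ℚ).comp ι, fun u hu => by
    have h : u • (ψ : F →+* AlgebraicClosure ℚ) = ψ := ψ.2 u hu
    ext x
    exact RingHom.congr_fun h (ι x)⟩

private theorem v4_ext {K F : Type} [Field K] [Field F] [Algebra K F] {b : K}
    (hb : ¬ IsSquare b) {θ : F} (hθ : θ ^ 2 = algebraMap K F b)
    (hd : Module.finrank K F = 2) (ψ ψ' : F →+* AlgebraicClosure ℚ)
    (h1 : ψ.comp (algebraMap K F) = ψ'.comp (algebraMap K F)) (h2 : ψ θ = ψ' θ) : ψ = ψ' := by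
  ext x
  obtain ⟨α, β, rfl⟩ := v4_gen hb hθ hd x
  have e1 : ψ (algebraMap K F α) = ψ' (algebraMap K F α) := RingHom.congr_fun h1 α
  have e2 : ψ (algebraMap K F β) = ψ' (algebraMap K F β) := RingHom.congr_fun h1 β
  rw [map_add, map_mul, map_add, map_mul, e1, e2, h2]

private theorem d4_val {K F : Type} [Field K] [Field F] [Algebra K F] {b : K} {θ : F}
    (hθ : θ ^ 2 = algebraMap K F b) {φ : K →+* AlgebraicClosure ℚ} {s : AlgebraicClosure ℚ}
    (hs : s ^ 2 = φ b) (ψ : F →+* AlgebraicClosure ℚ) (hψ : ψ.comp (algebraMap K F) = φ) :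
    ψ θ = s ∨ ψ θ = -s := by
  apply sq_eq_sq_iff_eq_or_eq_neg.mp
  rw [← map_pow, hθ, hs, ← hψ]
  rfl

open scoped Classical in
private theorem v4_two {K F : Type} [Field K] [NumberField K] [Field F] [NumberField F]
    [Algebra K F] {b : K} (hb : ¬ IsSquare b) {θ : F} (hθ : θ ^ 2 = algebraMap K F b)
    (hd : Module.finrank K F = 2) (U : Subgroup GQ) (φ : fx (K →+* AlgebraicClosure ℚ) U)
    (s : AlgebraicClosure ℚ) (hs : s ^ 2 = (φ : K →+* AlgebraicClosure ℚ) b) :
    Nat.card {ψ : fx (F →+* AlgebraicClosure ℚ) U // v4_rst (algebraMap K F) U ψ = φ} =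
      if ∀ u ∈ U, u s = s then 2 else 0 := by
  have hval : ∀ ψ : F →+* AlgebraicClosure ℚ, ψ.comp (algebraMap K F) = φ →
      ψ θ = s ∨ ψ θ = -s := fun ψ hψ => d4_val hθ hs ψ hψ
  split_ifs with h
  · rw [← v4_card hd (φ : K →+* AlgebraicClosure ℚ)]
    refine Nat.card_congr
      { toFun := fun ψ => ⟨(ψ.1 : F →+* AlgebraicClosure ℚ), congrArg Subtype.val ψ.2⟩
        invFun := fun ψ => ⟨⟨ψ.1, fun u hu => ?_⟩, Subtype.ext ψ.2⟩
        left_inv := fun ψ => rfl
        right_inv := fun ψ => rfl }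
    apply v4_ext hb hθ hd
    · have h1 : u • (φ : K →+* AlgebraicClosure ℚ) = φ := φ.2 u hu
      rw [← ψ.2] at h1
      exact h1
    · rw [smul_emb]
      rcases hval ψ.1 ψ.2 with h2 | h2
      · rw [h2, h u hu]
      · rw [h2, map_neg, h u hu]
  · push Not at h
    obtain ⟨u, hu, hus⟩ := h
    have : IsEmpty {ψ : fx (F →+* AlgebraicClosure ℚ) U // v4_rst (algebraMap K F) U ψ = φ} := by
      refine ⟨fun ψ => hus ?_⟩
      have h1 : u • (ψ.1 : F →+* AlgebraicClosure ℚ) = ψ.1 := ψ.1.2 u hu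
      have h2 := RingHom.congr_fun h1 θ
      rw [smul_emb] at h2
      rcases hval ψ.1 (congrArg Subtype.val ψ.2) with h3 | h3
      · rwa [h3] at h2
      · rw [h3, map_neg, neg_inj] at h2
        exact h2
    exact Nat.card_of_isEmpty

private theorem v4_sum {X Y : Type} [Fintype X] [Finite Y] (π : Y → X) :
    Nat.card Y = ∑ x, Nat.card {y : Y // π y = x} := by
  rw [← Nat.card_congr (Equiv.sigmaFiberEquiv π), Nat.card_sigma]

open scoped Classical in
/-- the fixed embeddings of `K(√a, √(X + Y √a))` over `φ` -/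
private theorem d4_cnt {K F M : Type} [Field K] [NumberField K] [Field F] [NumberField F]
    [Field M] [NumberField M] [Algebra K F] [Algebra F M] {a X Y : K} (ha : ¬ IsSquare a)
    {θ : F} (hθ : θ ^ 2 = algebraMap K F a) (hd : Module.finrank K F = 2)
    (hα : ¬ IsSquare (algebraMap K F X + algebraMap K F Y * θ)) {η : M}
    (hη : η ^ 2 = algebraMap F M (algebraMap K F X + algebraMap K F Y * θ))
    (hdM : Module.finrank F M = 2)
    (U : Subgroup GQ) (φ : fx (K →+* AlgebraicClosure ℚ) U)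
    (s r r' : AlgebraicClosure ℚ) (hs0 : s ≠ 0) (hs : s ^ 2 = (φ : K →+* AlgebraicClosure ℚ) a)
    (hr : r ^ 2 = (φ : K →+* AlgebraicClosure ℚ) X + (φ : K →+* AlgebraicClosure ℚ) Y * s)
    (hr' : r' ^ 2 = (φ : K →+* AlgebraicClosure ℚ) X - (φ : K →+* AlgebraicClosure ℚ) Y * s) :
    Nat.card {ψ : fx (M →+* AlgebraicClosure ℚ) U //
      v4_rst ((algebraMap F M).comp (algebraMap K F)) U ψ = φ} =
      if ∀ u ∈ U, u s = s then
        (if ∀ u ∈ U, u r = r then 2 else 0) + (if ∀ u ∈ U, u r' = r' then 2 else 0)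
      else 0 := by
  have := Fintype.ofFinite {ψ : fx (F →+* AlgebraicClosure ℚ) U //
    v4_rst (algebraMap K F) U ψ = φ}
  let π : {ψ : fx (M →+* AlgebraicClosure ℚ) U //
      v4_rst ((algebraMap F M).comp (algebraMap K F)) U ψ = φ} →
      {ψ : fx (F →+* AlgebraicClosure ℚ) U // v4_rst (algebraMap K F) U ψ = φ} :=
    fun ψ => ⟨v4_rst (algebraMap F M) U ψ.1, ψ.2⟩
  have hcard := v4_two ha hθ hd U φ s hs
  have hss : s ≠ -s := by
    intro h
    have h1 : (2 : AlgebraicClosure ℚ) * s = 0 := by linear_combination h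
    rcases mul_eq_zero.mp h1 with h2 | h2
    · norm_num at h2
    · exact hs0 h2
  -- the number of fixed embeddings over `ψ`
  let f : AlgebraicClosure ℚ → ℕ := fun y =>
    if y = s then (if ∀ u ∈ U, u r = r then 2 else 0) else (if ∀ u ∈ U, u r' = r' then 2 else 0)
  have hf1 : f s = if ∀ u ∈ U, u r = r then 2 else 0 := if_pos rfl
  have hf2 : f (-s) = if ∀ u ∈ U, u r' = r' then 2 else 0 := if_neg fun h1 => hss h1.symm
  have hψ : ∀ ψ : {ψ : fx (F →+* AlgebraicClosure ℚ) U // v4_rst (algebraMap K F) U ψ = φ},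
      (ψ.1 : F →+* AlgebraicClosure ℚ).comp (algebraMap K F) = φ := fun ψ =>
    congrArg Subtype.val ψ.2
  have hval := fun ψ => d4_val hθ hs _ (hψ ψ)
  have hfib : ∀ ψ : {ψ : fx (F →+* AlgebraicClosure ℚ) U // v4_rst (algebraMap K F) U ψ = φ},
      Nat.card {x // π x = ψ} = f ((ψ.1 : F →+* AlgebraicClosure ℚ) θ) := by
    intro ψ
    have e1 : Nat.card {x // π x = ψ} = Nat.card {x : fx (M →+* AlgebraicClosure ℚ) U //
        v4_rst (algebraMap F M) U x = ψ.1} := by
      refine Nat.card_congr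
        { toFun := fun x => ⟨x.1.1, congrArg Subtype.val x.2⟩
          invFun := fun x => ⟨⟨x.1, (congrArg (v4_rst (algebraMap K F) U) x.2).trans ψ.2⟩,
            Subtype.ext x.2⟩
          left_inv := fun x => rfl
          right_inv := fun x => rfl }
    have e2 : ∀ z : K, (ψ.1 : F →+* AlgebraicClosure ℚ) (algebraMap K F z) =
        (φ : K →+* AlgebraicClosure ℚ) z := fun z => RingHom.congr_fun (hψ ψ) z
    rw [e1]
    rcases hval ψ with h | h
    · rw [v4_two hα hη hdM U ψ.1 r (by rw [hr, map_add, map_mul, e2, e2, h]), h, hf1]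
    · rw [v4_two hα hη hdM U ψ.1 r' (by rw [hr', map_add, map_mul, e2, e2, h]; ring), h, hf2]
  rw [v4_sum π, Finset.sum_congr rfl fun ψ _ => hfib ψ]
  by_cases hU : ∀ u ∈ U, u s = s
  · rw [if_pos hU] at hcard ⊢
    have hinj : Function.Injective fun ψ : {ψ : fx (F →+* AlgebraicClosure ℚ) U //
        v4_rst (algebraMap K F) U ψ = φ} => (ψ.1 : F →+* AlgebraicClosure ℚ) θ := by
      intro ψ ψ' h
      apply Subtype.ext
      apply Subtype.ext
      exact v4_ext ha hθ hd _ _ ((hψ ψ).trans (hψ ψ').symm) h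
    have himg : Finset.univ.image (fun ψ : {ψ : fx (F →+* AlgebraicClosure ℚ) U //
        v4_rst (algebraMap K F) U ψ = φ} => (ψ.1 : F →+* AlgebraicClosure ℚ) θ) = {s, -s} := by
      refine Finset.eq_of_subset_of_card_le ?_ ?_
      · intro y hy
        obtain ⟨ψ, -, rfl⟩ := Finset.mem_image.1 hy
        rw [Finset.mem_insert, Finset.mem_singleton]
        exact hval ψ
      · rw [Finset.card_image_of_injective _ hinj, Finset.card_univ, ← Nat.card_eq_fintype_card,
          hcard]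
        exact Finset.card_le_two
    rw [← Finset.sum_image (f := f) (s := Finset.univ) (g := fun ψ : {ψ :
      fx (F →+* AlgebraicClosure ℚ) U // v4_rst (algebraMap K F) U ψ = φ} =>
        (ψ.1 : F →+* AlgebraicClosure ℚ) θ) (fun x _ y _ h => hinj h), himg,
      Finset.sum_pair hss, hf1, hf2]
  · rw [if_neg hU] at hcard ⊢
    rw [Nat.card_eq_fintype_card, Fintype.card_eq_zero_iff] at hcard
    exact Finset.sum_eq_zero fun ψ _ => (hcard.false ψ).elim

/-- the subgroups of the decomposition groups at `T` fix the roots of local squares at `T` -/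
private theorem d4_fix (T : Finset ℕ) {F : Type} [Field F] [NumberField F]
    (φ : F →+* AlgebraicClosure ℚ) (x : Fˣ) (s : AlgebraicClosure ℚ) (hs : s ^ 2 = φ (x : F))
    (hx : ∀ v : HeightOneSpectrum (𝓞 F), ¬ Away F T v → LSq v x) (U : Subgroup GQ)
    (l : ℕ) (hl : Fact l.Prime) (a : GQ) (hlT : l ∈ T) (ha : cj a U ≤ decomp ℚ_[l] (emb l))
    (g : GQ) (hg : g ∈ U) (hgφ : g • φ = φ) : g s = s := by
  haveI := hl
  obtain ⟨w, hw⟩ := exists_isPl l (a⁻¹ • φ)
  have h1 : ¬ Away F T w := fun h => h l hlT (isPl_mem hw)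
  have hs' : (a⁻¹ s) ^ 2 = (a⁻¹ • φ) (x : F) := by
    rw [← map_pow, hs]
    rfl
  have hd : a⁻¹ * g * a ∈ decomp ℚ_[l] (emb l) := ha (mem_cj hg)
  have hst : a⁻¹ * g * a ∈ stb (a⁻¹ • φ) := by
    change (a⁻¹ * g * a) • a⁻¹ • φ = a⁻¹ • φ
    rw [smul_smul, mul_assoc, mul_inv_cancel, mul_one, ← smul_smul, hgφ]
  have h2 := fix_of_lsq l (a⁻¹ • φ) hw x (a⁻¹ s) hs' (hx w h1) _ hd hst
  have h3 : (a⁻¹ * g * a) (a⁻¹ s) = a⁻¹ (g s) := by
    have h4 : a⁻¹ * g * a * a⁻¹ = a⁻¹ * g := by group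
    calc (a⁻¹ * g * a) (a⁻¹ s) = (a⁻¹ * g * a * a⁻¹) s := rfl
      _ = (a⁻¹ * g) s := by rw [h4]
      _ = a⁻¹ (g s) := rfl
  rw [h3] at h2
  exact (a⁻¹).injective h2

/-- `U` acts on `s`, `r`, `r'` as one of its elements does -/
private theorem d4_gen (T : Finset ℕ) {F : Type} [Field F] [NumberField F] (α : Fˣ)
    (hT : ∀ v : HeightOneSpectrum (𝓞 F), ¬ Away F T v → LSq v α) (U : Subgroup GQ)
    (hU : U ∈ famT T) (s r r' : AlgebraicClosure ℚ) (hs0 : s ≠ 0)
    (hs : ∀ u ∈ U, u s = s ∨ u s = -s) (ψ ψ' : F →+* AlgebraicClosure ℚ)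
    (hr : r ^ 2 = ψ (α : F)) (hr' : r' ^ 2 = ψ' (α : F))
    (hψ : ∀ u ∈ U, u s = s → u • ψ = ψ) (hψ' : ∀ u ∈ U, u s = s → u • ψ' = ψ') :
    ∃ g ∈ U, ∀ x : AlgebraicClosure ℚ, x = s ∨ x = r ∨ x = r' ∨ x = r * r' ∨ x = r + r' ∨
      x = r - r' → ((∀ u ∈ U, u x = x) ↔ g x = x) := by
  rcases hU with ⟨g, rfl⟩ | ⟨l, hl, a, hlT, ha⟩
  · refine ⟨g, Subgroup.mem_zpowers g, fun x _ => ⟨fun h => h g (Subgroup.mem_zpowers g),
      fun h u hu => ?_⟩⟩
    have h1 : Subgroup.zpowers g ≤ MulAction.stabilizer GQ x := by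
      rw [Subgroup.zpowers_le]
      exact h
    exact h1 hu
  · -- the elements which fix `s` fix everything
    have hfix : ∀ u ∈ U, u s = s → u r = r ∧ u r' = r' := fun u hu h =>
      ⟨d4_fix T ψ α r hr hT U l hl a hlT ha u hu (hψ u hu h),
        d4_fix T ψ' α r' hr' hT U l hl a hlT ha u hu (hψ' u hu h)⟩
    have hall : ∀ u ∈ U, u s = s → ∀ x : AlgebraicClosure ℚ, x = s ∨ x = r ∨ x = r' ∨
        x = r * r' ∨ x = r + r' ∨ x = r - r' → u x = x := by
      intro u hu h x hx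
      obtain ⟨h1, h2⟩ := hfix u hu h
      rcases hx with rfl | rfl | rfl | rfl | rfl | rfl
      · exact h
      · exact h1
      · exact h2
      · rw [map_mul, h1, h2]
      · rw [map_add, h1, h2]
      · rw [map_sub, h1, h2]
    by_cases hU : ∀ u ∈ U, u s = s
    · refine ⟨1, U.one_mem, fun x hx => ⟨fun _ => rfl, fun _ u hu => hall u hu (hU u hu) x hx⟩⟩
    · push Not at hU
      obtain ⟨g, hg, hgs⟩ := hU
      have hgs' : g s = -s := (hs g hg).resolve_left hgs
      refine ⟨g, hg, fun x hx => ⟨fun h => h g hg, fun h u hu => ?_⟩⟩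
      rcases hs u hu with h1 | h1
      · exact hall u hu h1 x hx
      · have h2 : (g⁻¹ * u) s = s := by
          have h3 : g⁻¹ (-s) = s := by
            rw [← hgs']
            exact AlgEquiv.symm_apply_apply g s
          calc (g⁻¹ * u) s = g⁻¹ (u s) := rfl
            _ = s := by rw [h1, h3]
        have h3 := hall (g⁻¹ * u) (U.mul_mem (U.inv_mem hg) hu) h2 x hx
        have h4 : u x = g ((g⁻¹ * u) x) := by
          have h5 : g * (g⁻¹ * u) = u := by group
          calc u x = (g * (g⁻¹ * u)) x := by rw [h5]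
            _ = g ((g⁻¹ * u) x) := rfl
        rw [h4, h3, h]

open scoped Classical in
/-- the numbers of fixed embeddings over `φ` agree -/
private theorem d4_num (g : GQ) (s r r' t : AlgebraicClosure ℚ) (ht : t = r * r')
    (hs0 : s ≠ 0) (hr0 : r ≠ 0) (hr0' : r' ≠ 0) (h1 : r + r' ≠ 0) (h2 : r - r' ≠ 0)
    (h : (g s = s ∧ (g r = r ∨ g r = -r) ∧ (g r' = r' ∨ g r' = -r')) ∨
      (g s = -s ∧ (g r = r' ∨ g r = -r') ∧ (g r' = r ∨ g r' = -r))) :
    (if g s = s then (if g r = r then 2 else 0) + (if g r' = r' then 2 else 0) else 0) +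
        (if g t = t then 2 else 0) =
      (if g t = t then (if g (r + r') = r + r' then 2 else 0) +
        (if g (r - r') = r - r' then 2 else 0) else 0) + (if g s = s then 2 else 0) := by
  have hneg : ∀ x : AlgebraicClosure ℚ, x ≠ 0 → ¬ (-x = x) := by
    intro x hx h
    have h1 : (2 : AlgebraicClosure ℚ) * x = 0 := by linear_combination -h
    rcases mul_eq_zero.mp h1 with h2 | h2
    · norm_num at h2
    · exact hx h2
  have ht0 : t ≠ 0 := by
    rw [ht]
    exact mul_ne_zero hr0 hr0'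
  have e1 : g t = g r * g r' := by rw [ht, map_mul]
  have e2 : g (r + r') = g r + g r' := map_add g r r'
  have e3 : g (r - r') = g r - g r' := map_sub g r r'
  rw [e1, e2, e3]
  rcases h with ⟨h3, h4 | h4, h5 | h5⟩ | ⟨h3, h4 | h4, h5 | h5⟩
  · rw [h3, h4, h5, if_pos rfl, if_pos rfl, if_pos rfl, if_pos ht.symm, if_pos ht.symm,
      if_pos rfl, if_pos rfl, if_pos rfl]
  · have a1 : ¬ (r * -r' = t) := by
      rw [mul_neg, ← ht]
      exact hneg t ht0
    rw [h3, h4, h5, if_pos rfl, if_pos rfl, if_neg (hneg r' hr0'), if_neg a1, if_neg a1,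
      if_pos rfl]
  · have a1 : ¬ (-r * r' = t) := by
      rw [neg_mul, ← ht]
      exact hneg t ht0
    rw [h3, h4, h5, if_pos rfl, if_neg (hneg r hr0), if_pos rfl, if_neg a1, if_neg a1,
      if_pos rfl]
  · have a1 : -r * -r' = t := by
      rw [neg_mul_neg, ht]
    have a2 : ¬ (-r + -r' = r + r') := by
      rw [← neg_add]
      exact hneg _ h1
    have a3 : ¬ (-r - -r' = r - r') := by
      rw [neg_sub_neg, ← neg_sub]
      exact hneg _ h2
    rw [h3, h4, h5, if_pos rfl, if_neg (hneg r hr0), if_neg (hneg r' hr0'), if_pos a1,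
      if_pos a1, if_neg a2, if_neg a3, if_pos rfl]
  · have a1 : r' * r = t := by
      rw [ht, mul_comm]
    have a2 : r' + r = r + r' := add_comm _ _
    have a3 : ¬ (r' - r = r - r') := by
      rw [← neg_sub]
      exact hneg _ h2
    rw [h3, h4, h5, if_neg (hneg s hs0), if_pos a1, if_pos a1, if_pos a2, if_neg a3,
      if_neg (hneg s hs0)]
  · have a1 : ¬ (r' * -r = t) := by
      rw [mul_neg, mul_comm, ← ht]
      exact hneg t ht0
    rw [h3, h4, h5, if_neg (hneg s hs0), if_neg a1, if_neg a1, if_neg (hneg s hs0)]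
  · have a1 : ¬ (-r' * r = t) := by
      rw [neg_mul, mul_comm, ← ht]
      exact hneg t ht0
    rw [h3, h4, h5, if_neg (hneg s hs0), if_neg a1, if_neg a1, if_neg (hneg s hs0)]
  · have a1 : -r' * -r = t := by
      rw [neg_mul_neg, ht, mul_comm]
    have a2 : ¬ (-r' + -r = r + r') := by
      rw [add_comm, ← neg_add]
      exact hneg _ h1
    have a3 : -r' - -r = r - r' := by ring
    rw [h3, h4, h5, if_neg (hneg s hs0), if_pos a1, if_pos a1, if_neg a2, if_pos a3,
      if_neg (hneg s hs0)]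

private theorem d4_li {K F : Type} [Field K] [Field F] [Algebra K F] {a : K}
    (ha : ¬ IsSquare a) {θ : F} (hθ : θ ^ 2 = algebraMap K F a) {p q : K}
    (h : algebraMap K F p + algebraMap K F q * θ = 0) : p = 0 ∧ q = 0 := by
  have hq : q = 0 := by
    by_contra hne
    apply ha
    refine ⟨-(q⁻¹ * p), ?_⟩
    apply (algebraMap K F).injective
    have h1 : algebraMap K F q ≠ 0 := by
      rwa [Ne, map_eq_zero]
    have h2 : θ = algebraMap K F (-(q⁻¹ * p)) := by
      rw [map_neg, map_mul, map_inv₀]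
      field_simp
      linear_combination h
    rw [← hθ, h2, map_mul, pow_two]
  refine ⟨?_, hq⟩
  rw [hq, map_zero, zero_mul, add_zero, map_eq_zero] at h
  exact h

/-- if the norm is no square, then the element is no square -/
theorem d4_nsq {K F : Type} [Field K] [Field F] [Algebra K F] {a X Y : K}
    (ha : ¬ IsSquare a) {θ : F} (hθ : θ ^ 2 = algebraMap K F a) (hd : Module.finrank K F = 2)
    (hN : ¬ IsSquare (X ^ 2 - a * Y ^ 2)) :
    ¬ IsSquare (algebraMap K F X + algebraMap K F Y * θ) := by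
  rintro ⟨γ, hγ⟩
  obtain ⟨m, n, rfl⟩ := v4_gen ha hθ hd γ
  have h1 : algebraMap K F (X - (m ^ 2 + a * n ^ 2)) +
      algebraMap K F (Y - 2 * m * n) * θ = 0 := by
    simp only [map_sub, map_add, map_mul, map_pow, map_ofNat]
    linear_combination hγ + algebraMap K F n ^ 2 * hθ
  obtain ⟨h2, h3⟩ := d4_li ha hθ h1
  refine hN ⟨m ^ 2 - a * n ^ 2, ?_⟩
  have h4 : X = m ^ 2 + a * n ^ 2 := by linear_combination h2
  have h5 : Y = 2 * m * n := by linear_combination h3
  rw [h4, h5]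
  ring

theorem rel_d4 (T : Finset ℕ) (K Fa Fb Ma Mb : NF) [Algebra K.F Fa.F] [Algebra K.F Fb.F]
    [Algebra Fa.F Ma.F] [Algebra Fb.F Mb.F] (a b : (K.F)ˣ) (X Y : K.F) (hY : Y ≠ 0)
    (hN : (b : K.F) = X ^ 2 - a * Y ^ 2) (ha : ¬ IsSquare a) (hb : ¬ IsSquare b)
    (θa : Fa.F) (θb : Fb.F) (η : Ma.F) (ζ : Mb.F)
    (da : Module.finrank K.F Fa.F = 2) (db : Module.finrank K.F Fb.F = 2)
    (dMa : Module.finrank Fa.F Ma.F = 2) (dMb : Module.finrank Fb.F Mb.F = 2)
    (sa : θa ^ 2 = algebraMap K.F Fa.F (a : K.F)) (sb : θb ^ 2 = algebraMap K.F Fb.F (b : K.F))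
    (α : (Fa.F)ˣ) (hα : (α : Fa.F) = algebraMap K.F Fa.F X + algebraMap K.F Fa.F Y * θa)
    (hη : η ^ 2 = algebraMap Fa.F Ma.F (α : Fa.F))
    (hζ : ζ ^ 2 = algebraMap Fb.F Mb.F
      (algebraMap K.F Fb.F (2 * X) + algebraMap K.F Fb.F 2 * θb))
    (hT : ∀ w : HeightOneSpectrum (𝓞 Fa.F), ¬ Away Fa.F T w → LSq w α) :
    Rel T [Ma, Fb] [Mb, Fa] := by
  classical
  intro U hU
  have := Fintype.ofFinite (fx (K.F →+* AlgebraicClosure ℚ) U)
  have mF : ∀ (F : NF) (ι : K.F →+* F.F), mark F.F U = ∑ φ : fx (K.F →+* AlgebraicClosure ℚ) U,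
      ((Nat.card {ψ : fx (F.F →+* AlgebraicClosure ℚ) U // v4_rst ι U ψ = φ} : ℕ) : ℤ) := by
    intro F ι
    change (Nat.card (fx (F.F →+* AlgebraicClosure ℚ) U) : ℤ) = _
    rw [v4_sum (v4_rst ι U), Nat.cast_sum]
  have hsq : ∀ c : (K.F)ˣ, ¬ IsSquare c → ¬ IsSquare (c : K.F) := by
    rintro c hc ⟨r, hr⟩
    have hr0 : r ≠ 0 := by
      rintro rfl
      exact c.ne_zero (by rw [hr, mul_zero])
    exact hc ⟨Units.mk0 r hr0, Units.ext hr⟩
  have ha' : ¬ IsSquare (a : K.F) := hsq a ha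
  have hb' : ¬ IsSquare (b : K.F) := hsq b hb
  have hαn : ¬ IsSquare (algebraMap K.F Fa.F X + algebraMap K.F Fa.F Y * θa) :=
    d4_nsq ha' sa da (by rwa [← hN])
  have hβn : ¬ IsSquare (algebraMap K.F Fb.F (2 * X) + algebraMap K.F Fb.F 2 * θb) := by
    refine d4_nsq hb' sb db ?_
    rintro ⟨m, hm⟩
    refine ha' ⟨m / (2 * Y), ?_⟩
    rw [hN] at hm
    have h2 : (2 : K.F) ≠ 0 := two_ne_zero
    field_simp
    linear_combination hm
  simp only [List.map_cons, List.map_nil, List.sum_cons, List.sum_nil, add_zero]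
  rw [mF Ma ((algebraMap Fa.F Ma.F).comp (algebraMap K.F Fa.F)), mF Fb (algebraMap K.F Fb.F),
    mF Mb ((algebraMap Fb.F Mb.F).comp (algebraMap K.F Fb.F)), mF Fa (algebraMap K.F Fa.F),
    ← Finset.sum_add_distrib, ← Finset.sum_add_distrib]
  refine Finset.sum_congr rfl fun φ _ => ?_
  obtain ⟨⟨ψ, hψ⟩, ⟨ψ', hψ'⟩, hne, -⟩ := Nat.card_eq_two_iff.1
    (v4_card da (φ : K.F →+* AlgebraicClosure ℚ))
  obtain ⟨s, hsd⟩ : ∃ s, s = ψ θa := ⟨_, rfl⟩
  have hs : s ^ 2 = (φ : K.F →+* AlgebraicClosure ℚ) (a : K.F) := by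
    rw [hsd, ← map_pow, sa, ← hψ]
    rfl
  have hs0 : s ≠ 0 := by
    rintro rfl
    rw [zero_pow two_ne_zero] at hs
    exact a.ne_zero ((map_eq_zero _).1 hs.symm)
  have hsd' : ψ' θa = -s := by
    refine (d4_val sa hs ψ' hψ').resolve_left fun h => hne ?_
    exact Subtype.ext (v4_ext ha' sa da ψ ψ' (hψ.trans hψ'.symm) (hsd.symm.trans h.symm))
  have ev : ∀ z : K.F, ψ (algebraMap K.F Fa.F z) = (φ : K.F →+* AlgebraicClosure ℚ) z :=
    fun z => RingHom.congr_fun hψ z
  have ev' : ∀ z : K.F, ψ' (algebraMap K.F Fa.F z) = (φ : K.F →+* AlgebraicClosure ℚ) z :=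
    fun z => RingHom.congr_fun hψ' z
  obtain ⟨r, hr⟩ := IsAlgClosed.exists_pow_nat_eq (ψ (α : Fa.F)) (n := 2) (by norm_num)
  obtain ⟨r', hr'⟩ := IsAlgClosed.exists_pow_nat_eq (ψ' (α : Fa.F)) (n := 2) (by norm_num)
  have hrX : r ^ 2 = (φ : K.F →+* AlgebraicClosure ℚ) X +
      (φ : K.F →+* AlgebraicClosure ℚ) Y * s := by
    rw [hr, hα, map_add, map_mul, ev, ev, hsd]
  have hrX' : r' ^ 2 = (φ : K.F →+* AlgebraicClosure ℚ) X -
      (φ : K.F →+* AlgebraicClosure ℚ) Y * s := by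
    rw [hr', hα, map_add, map_mul, ev', ev', hsd']
    ring
  obtain ⟨t, ht⟩ : ∃ t, t = r * r' := ⟨_, rfl⟩
  have ht2 : t ^ 2 = (φ : K.F →+* AlgebraicClosure ℚ) (b : K.F) := by
    rw [ht, mul_pow, hrX, hrX', hN, map_sub, map_mul, map_pow, map_pow, ← hs]
    ring
  have hr0 : r ≠ 0 := by
    rintro rfl
    rw [zero_pow two_ne_zero] at hr
    exact α.ne_zero ((map_eq_zero _).1 hr.symm)
  have hr0' : r' ≠ 0 := by
    rintro rfl
    rw [zero_pow two_ne_zero] at hr'
    exact α.ne_zero ((map_eq_zero _).1 hr'.symm)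
  have ht0 : t ≠ 0 := by
    rw [ht]
    exact mul_ne_zero hr0 hr0'
  have hYs : (φ : K.F →+* AlgebraicClosure ℚ) Y * s ≠ 0 :=
    mul_ne_zero ((map_ne_zero _).2 hY) hs0
  have h1 : r + r' ≠ 0 := by
    intro h
    refine hYs ?_
    have h2 : (2 : AlgebraicClosure ℚ) * ((φ : K.F →+* AlgebraicClosure ℚ) Y * s) = 0 := by
      linear_combination hrX' - hrX + (r - r') * h
    exact (mul_eq_zero.1 h2).resolve_left two_ne_zero
  have h2 : r - r' ≠ 0 := by
    intro h
    refine hYs ?_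
    have h2 : (2 : AlgebraicClosure ℚ) * ((φ : K.F →+* AlgebraicClosure ℚ) Y * s) = 0 := by
      linear_combination hrX' - hrX + (r + r') * h
    exact (mul_eq_zero.1 h2).resolve_left two_ne_zero
  -- the action on the roots
  have hφ : ∀ u ∈ U, ∀ z : K.F, u ((φ : K.F →+* AlgebraicClosure ℚ) z) =
      (φ : K.F →+* AlgebraicClosure ℚ) z := fun u hu z => RingHom.congr_fun (φ.2 u hu) z
  have hus : ∀ u ∈ U, u s = s ∨ u s = -s := by
    intro u hu
    apply sq_eq_sq_iff_eq_or_eq_neg.mp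
    rw [← map_pow, hs]
    exact hφ u hu _
  have hψu : ∀ u ∈ U, u s = s → u • ψ = ψ := by
    intro u hu h
    refine v4_ext ha' sa da _ _ ?_ ?_
    · ext z
      change u (ψ (algebraMap K.F Fa.F z)) = ψ (algebraMap K.F Fa.F z)
      rw [ev]
      exact hφ u hu z
    · rw [smul_emb, ← hsd, h]
  have hψu' : ∀ u ∈ U, u s = s → u • ψ' = ψ' := by
    intro u hu h
    refine v4_ext ha' sa da _ _ ?_ ?_
    · ext z
      change u (ψ' (algebraMap K.F Fa.F z)) = ψ' (algebraMap K.F Fa.F z)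
      rw [ev']
      exact hφ u hu z
    · rw [smul_emb, hsd', map_neg, h]
  obtain ⟨g, hg, hgx⟩ := d4_gen T α hT U hU s r r' hs0 hus ψ ψ' hr hr' hψu hψu'
  rw [v4_two hb' sb db U φ t ht2, v4_two ha' sa da U φ s hs,
    d4_cnt ha' sa da hαn (by rw [hη, hα]) dMa U φ s r r' hs0 hs hrX hrX',
    d4_cnt hb' sb db hβn hζ dMb U φ t (r + r') (r - r') ht0 ht2
      (by rw [map_mul, map_ofNat, ht]; linear_combination hrX + hrX')
      (by rw [map_mul, map_ofNat, ht]; linear_combination hrX + hrX')]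
  have es : (∀ u ∈ U, u s = s) ↔ g s = s := hgx s (by simp)
  have er : (∀ u ∈ U, u r = r) ↔ g r = r := hgx r (by simp)
  have er' : (∀ u ∈ U, u r' = r') ↔ g r' = r' := hgx r' (by simp)
  have et : (∀ u ∈ U, u t = t) ↔ g t = t := hgx t (by simp [ht])
  have e1 : (∀ u ∈ U, u (r + r') = r + r') ↔ g (r + r') = r + r' := hgx (r + r') (by simp)
  have e2 : (∀ u ∈ U, u (r - r') = r - r') ↔ g (r - r') = r - r' := hgx (r - r') (by simp)
  have hnum := d4_num g s r r' t ht hs0 hr0 hr0' h1 h2 ?_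
  · rw [← Nat.cast_add, ← Nat.cast_add]
    congr 1
    simp only [es, er, er', et, e1, e2]
    exact hnum
  · rcases hus g hg with h | h
    · refine Or.inl ⟨h, ?_, ?_⟩
      · apply sq_eq_sq_iff_eq_or_eq_neg.mp
        rw [← map_pow, hrX, map_add, map_mul, hφ g hg, hφ g hg, h]
      · apply sq_eq_sq_iff_eq_or_eq_neg.mp
        rw [← map_pow, hrX', map_sub, map_mul, hφ g hg, hφ g hg, h]
    · refine Or.inr ⟨h, ?_, ?_⟩
      · apply sq_eq_sq_iff_eq_or_eq_neg.mp
        rw [← map_pow, hrX, hrX', map_add, map_mul, hφ g hg, hφ g hg, h]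
        ring
      · apply sq_eq_sq_iff_eq_or_eq_neg.mp
        rw [← map_pow, hrX, hrX', map_sub, map_mul, hφ g hg, hφ g hg, h]
        ring

end Pool.Agent.TF2
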