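import Pool.Agent.TF2.D.Exist
import Pool.Agent.TF2.D.Rel4
import Pool.Agent.TF2.K.Cl
import Pool.Agent.THG.G.V4

/-!
# TF2/D-Main: the signs of the quadratic extensions are all the same

`K` a number field such that every quadratic extension `L` of `K` satisfies `AllQ` (Hasse-Weil up
to the sign for `L`, exact for the quadratic extensions of `L`).  Then there is one `e0` with
`SG D a x e0` for all nonsquares `x`.

Proof: `x`, `y` with `x y` not a square have a common norm `c` (`exists_common`); the relation of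
the dihedral group (`rel_d4`) gives `e(x) = e(c)` and `e(y) = e(c)`.
-/

namespace Pool.Agent.TF2

open NumberField IsDedekindDomain Pool.Agent.HWR Pool.Agent.QD Pool.Agent.QD.In Pool.Agent.LD
  Pool.Agent.MD Pool.Agent.THF Pool.Agent.THG

private theorem dm_id {f g : ℂ → ℂ} (hf : Differentiable ℂ f) (hg : Differentiable ℂ g)
    (h : ∀ s : ℂ, 3 / 2 < s.re → f s = g s) : ∀ s, f s = g s := by
  have a1 : AnalyticOnNhd ℂ f Set.univ := fun z _ => hf.analyticAt z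
  have a2 : AnalyticOnNhd ℂ g Set.univ := fun z _ => hg.analyticAt z
  have h1 : f = g := by
    refine AnalyticOnNhd.eq_of_eventuallyEq (z₀ := 2) a1 a2 ?_
    have h2 : {s : ℂ | 3 / 2 < s.re} ∈ nhds (2 : ℂ) :=
      (isOpen_lt continuous_const Complex.continuous_re).mem_nhds (by norm_num)
    filter_upwards [h2] with s hs
    exact h s hs
  exact fun s => congrFun h1 s

private theorem dm_unit {K : Type} [Field K] {x : Kˣ} (hx : ¬ IsSquare x) : ¬ IsSquare (x : K) := by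
  rintro ⟨y, hy⟩
  have hy0 : y ≠ 0 := by
    rintro rfl
    rw [mul_zero] at hy
    exact x.ne_zero hy
  refine hx ⟨Units.mk0 y hy0, Units.ext ?_⟩
  rw [hy, Units.val_mul, Units.val_mk0]

private theorem dm_wx {T : Finset ℕ} (D : LocData T) {K : Type} [Field K] [NumberField K] {x : Kˣ}
    (hx : ¬ IsSquare x) : D.w (qf hx).L = wx D x := by
  unfold wx nr nc sgx LocData.w
  rw [dif_neg hx, dif_neg hx, dif_neg hx]

private theorem dm_w {T : Finset ℕ} (D : LocData T) {K : Type} [Field K] [NumberField K] {x : Kˣ}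
    (hx : ¬ IsSquare x) (L : Type) [Field L] [NumberField L] [Algebra K L]
    (hd : Module.finrank K L = 2) (θ : L) (hθ : θ ^ 2 = algebraMap K L (x : K)) :
    D.w L = wx D x := by
  obtain ⟨e⟩ := quad_iso hx L (qf hx).L hd (qf hx).deg θ (qf hx).θ hθ (qf hx).sq
  have h := Pool.Agent.H73.AL.rel_w D (rel_iso e.toRingEquiv T)
  simp only [List.map_cons, List.map_nil, List.prod_cons, List.prod_nil, mul_one] at h
  rw [h, dm_wx]

/-- the algebra of the signs -/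
private theorem dm_alg {m1 m2 n1 n2 a1 a2 c1 c2 wM wN wx wc e e' : ℂ}
    (hm : m1 = wM * m2) (hn : n1 = wN * n2) (ha : a1 = e * wx * a2) (hc : c1 = e' * wc * c2)
    (h1 : m1 * c1 = n1 * a1) (h2 : m2 * c2 = n2 * a2) (hn0 : n1 ≠ 0) (ha0 : a1 ≠ 0)
    (hw : wM * (wc * 1) = wN * (wx * 1)) : e = e' := by
  have h3 : n1 * a1 ≠ 0 := mul_ne_zero hn0 ha0
  have h4 : n1 * a1 = e * ((wN * wx) * (n2 * a2)) := by
    rw [hn, ha]
    ring
  have h5 : n1 * a1 = e' * ((wN * wx) * (n2 * a2)) := by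
    rw [← h1, hm, hc]
    linear_combination (e' * m2 * c2) * hw + (e' * wN * wx) * h2
  have h6 : (wN * wx) * (n2 * a2) ≠ 0 := by
    intro h
    exact h3 (by rw [h4, h, mul_zero])
  exact mul_right_cancel₀ h6 (h4.symm.trans h5)

variable {T : Finset ℕ} (hTp : ∀ p ∈ T, p.Prime) (hT : ∀ p : ℕ, p.Prime → p < 101 → p ∈ T)
  (D : LocData T) {a : ℕ → ℝ} (ha : ∀ q : ℕ, |a q| ≤ 2 * Real.sqrt q)

include hTp hT ha

private theorem dm_ex {K : Type} [Field K] [NumberField K] {x : Kˣ} (hx : ¬ IsSquare x)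
    (hp : HWpm D a (qf hx).L) : ∃ η : ℤ, SG D a x η := by
  obtain ⟨Λ, h1, h2, h3, h4⟩ := hp
  have h5 : ∀ s : ℂ, 3 / 2 < s.re → Λ s = LX D a x s := fun s hs => by
    rw [h4 s hs, LX_quad D hTp hT ha hx (qf hx).L (qf hx).deg (qf hx).θ (qf hx).sq hs]
  rcases wx_cases D x with hw | hw <;> rcases h3 with h | h
  · refine ⟨1, Or.inl rfl, Λ, h1, h2, fun s => ?_, h5⟩
    rw [h s, hw]
    have h6 : (2 : ℂ) - (2 - s) = s := by ring
    push_cast
    rw [one_mul, one_mul]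
  · refine ⟨-1, Or.inr rfl, Λ, h1, h2, fun s => ?_, h5⟩
    rw [h s, hw]
    push_cast
    ring
  · refine ⟨-1, Or.inr rfl, Λ, h1, h2, fun s => ?_, h5⟩
    rw [h s, hw]
    push_cast
    ring
  · refine ⟨1, Or.inl rfl, Λ, h1, h2, fun s => ?_, h5⟩
    rw [h s, hw]
    push_cast
    ring

/-- the sign depends on the square class only -/
private theorem dm_class {K : Type} [Field K] [NumberField K] {x y : Kˣ} (hx : ¬ IsSquare x)
    (hy : ¬ IsSquare y) (hxy : IsSquare (x * y)) {e : ℤ} (h : SG D a x e) : SG D a y e := by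
  obtain ⟨u, hu⟩ := hxy
  have h0 : ((qf hx).θ * algebraMap K (qf hx).L ((u * x⁻¹ : Kˣ) : K)) ^ 2 =
      algebraMap K (qf hx).L (y : K) := by
    rw [mul_pow, (qf hx).sq, ← map_pow, ← map_mul, ← Units.val_pow_eq_pow_val, ← Units.val_mul]
    have h1 : x * (u * x⁻¹) ^ 2 = y := by
      have h2 : x * (u * x⁻¹) ^ 2 = u * u * x⁻¹ := by
        rw [pow_two]
        calc x * (u * x⁻¹ * (u * x⁻¹)) = x * x⁻¹ * (u * u * x⁻¹) := by ac_rfl
          _ = u * u * x⁻¹ := by rw [mul_inv_cancel, one_mul]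
      rw [h2, ← hu, mul_comm x y, mul_inv_cancel_right]
    rw [h1]
  obtain ⟨he, Λ, g1, g2, g3, g4⟩ := h
  refine ⟨he, Λ, g1, g2, fun s => ?_, fun s hs => ?_⟩
  · rw [g3 s, ← dm_w D hx (qf hx).L (qf hx).deg (qf hx).θ (qf hx).sq,
      ← dm_w D hy (qf hx).L (qf hx).deg _ h0]
  · rw [g4 s hs, LX_quad D hTp hT ha hx (qf hx).L (qf hx).deg (qf hx).θ (qf hx).sq hs,
      LX_quad D hTp hT ha hy (qf hx).L (qf hx).deg _ h0 hs]

private theorem dm_core {K : Type} [Field K] [NumberField K]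
    (h1 : ∀ (L : Type) [Field L] [NumberField L] [Algebra K L], Module.finrank K L = 2 →
      AllQ D a L) {x c : Kˣ} (hx : ¬ IsSquare x) (hc : ¬ IsSquare c) (hn : Near T x c)
    {e e' : ℤ} (he : SG D a x e) (he' : SG D a c e') : e = e' := by
  obtain ⟨X, Y, hY, hN, hnear⟩ := hn
  obtain ⟨La, i1, i2, i3, θa, da, sa⟩ := exists_quad K x hx
  obtain ⟨Lb, k1, k2, k3, θb, db, sb⟩ := exists_quad K c hc
  have hα : ¬ IsSquare (algebraMap K La X + algebraMap K La Y * θa) :=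
    d4_nsq (dm_unit hx) sa da (by rw [← hN]; exact dm_unit hc)
  have hβ : ¬ IsSquare (algebraMap K Lb (2 * X) + algebraMap K Lb 2 * θb) := by
    refine d4_nsq (dm_unit hc) sb db ?_
    rintro ⟨r, hr⟩
    refine dm_unit hx ⟨r / (2 * Y), ?_⟩
    have h2Y : (2 : K) * Y ≠ 0 := mul_ne_zero two_ne_zero hY
    rw [div_mul_div_comm, ← hr, hN, eq_div_iff (mul_ne_zero h2Y h2Y)]
    ring
  have hα0 : algebraMap K La X + algebraMap K La Y * θa ≠ 0 := by
    intro h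
    exact hα ⟨0, by rw [h, mul_zero]⟩
  have hβ0 : algebraMap K Lb (2 * X) + algebraMap K Lb 2 * θb ≠ 0 := by
    intro h
    exact hβ ⟨0, by rw [h, mul_zero]⟩
  have hαu : ¬ IsSquare (Units.mk0 _ hα0) := by
    rintro ⟨r, hr⟩
    exact hα ⟨r, by rw [← Units.val_mul, ← hr, Units.val_mk0]⟩
  have hβu : ¬ IsSquare (Units.mk0 _ hβ0) := by
    rintro ⟨r, hr⟩
    exact hβ ⟨r, by rw [← Units.val_mul, ← hr, Units.val_mk0]⟩
  obtain ⟨Ma, j1, j2, j3, η, dMa, hη⟩ := exists_quad La (Units.mk0 _ hα0) hαu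
  obtain ⟨Mb, l1, l2, l3, ζ, dMb, hζ⟩ := exists_quad Lb (Units.mk0 _ hβ0) hβu
  have hrel : Pool.Agent.H73.AL.Rel T [⟨Ma⟩, ⟨Lb⟩] [⟨Mb⟩, ⟨La⟩] :=
    rel_d4 T ⟨K⟩ ⟨La⟩ ⟨Lb⟩ ⟨Ma⟩ ⟨Mb⟩ x c X Y hY hN hx hc θa θb η ζ da db dMa dMb sa sb
      (Units.mk0 _ hα0) rfl hη hζ (fun w hw => hnear La θa sa (Units.mk0 _ hα0) rfl w hw)
  have hw : D.w Ma * (D.w Lb * 1) = D.w Mb * (D.w La * 1) := Pool.Agent.H73.AL.rel_w D hrel
  rw [dm_w D hx La da θa sa, dm_w D hc Lb db θb sb] at hw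
  obtain ⟨μ, μ1, -, μ3, μ4⟩ := (h1 La da).2 Ma dMa
  obtain ⟨ν, ν1, -, ν3, ν4⟩ := (h1 Lb db).2 Mb dMb
  obtain ⟨-, A, A1, -, A3, A4⟩ := he
  obtain ⟨-, C, C1, -, C3, C4⟩ := he'
  have hid : ∀ s : ℂ, μ s * C s = ν s * A s := by
    refine dm_id (μ1.mul C1) (ν1.mul A1) fun s hs => ?_
    have hL : D.Lam a Ma s * (D.Lam a Lb s * 1) = D.Lam a Mb s * (D.Lam a La s * 1) :=
      Pool.Agent.H73.AL.rel_Lam D hTp hT ha hrel hs
    rw [μ4 s hs, ν4 s hs, A4 s hs, C4 s hs, LX_quad D hTp hT ha hx La da θa sa hs,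
      LX_quad D hTp hT ha hc Lb db θb sb hs]
    rw [mul_one, mul_one] at hL
    exact hL
  have h30 : (3 / 2 : ℝ) < (3 : ℂ).re := by
    norm_num
  have hres := dm_alg (μ3 3) (ν3 3) (A3 3) (C3 3) (hid 3) (hid (2 - 3))
    (by rw [ν4 3 h30]; exact Pool.Agent.H73.AL.Lam_ne D hTp hT ha Mb h30)
    (by rw [A4 3 h30]; exact LX_ne D hT ha x h30) hw
  exact_mod_cast hres

theorem sg_const (K : Type) [Field K] [NumberField K]
    (h1 : ∀ (L : Type) [Field L] [NumberField L] [Algebra K L], Module.finrank K L = 2 →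
      AllQ D a L) : ∃ e0 : ℤ, ∀ x : Kˣ, ¬ IsSquare x → SG D a x e0 := by
  by_cases h : ∃ x : Kˣ, ¬ IsSquare x
  · obtain ⟨x0, hx0⟩ := h
    obtain ⟨e0, he0⟩ := dm_ex hTp hT D ha hx0 (h1 (qf hx0).L (qf hx0).deg).1
    refine ⟨e0, fun x hx => ?_⟩
    by_cases hxx : IsSquare (x0 * x)
    · exact dm_class hTp hT D ha hx0 hx hxx he0
    · obtain ⟨e, he⟩ := dm_ex hTp hT D ha hx (h1 (qf hx).L (qf hx).deg).1
      obtain ⟨c, hc, hn0, hn⟩ := exists_common K T hTp (hT 2 Nat.prime_two (by norm_num))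
        (hT 3 Nat.prime_three (by norm_num)) x0 x hxx
      obtain ⟨ec, hec⟩ := dm_ex hTp hT D ha hc (h1 (qf hc).L (qf hc).deg).1
      have e1 := dm_core hTp hT D ha h1 hx0 hc hn0 he0 hec
      have e2 := dm_core hTp hT D ha h1 hx hc hn he hec
      rw [e1, ← e2]
      exact he
  · push Not at h
    exact ⟨1, fun x hx => absurd (h x) hx⟩

end Pool.Agent.TF2
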