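import Pool.Agent.QD.In.Ex
import Pool.Agent.QD.N3.Hensel
import Pool.Agent.QD.N3.Inert

/-!
# TF2/D-Exist: a common norm

For units `a`, `b` of a number field `K` with `a b` not a square there is a nonsquare `c` with
`c = X² - a Y² = X'² - b Y'²`, `Y`, `Y'` not zero, such that `X + Y √a`, `X' + Y' √b` are local
squares at all places over `T`.
-/

namespace Pool.Agent.TF2

open NumberField IsDedekindDomain Pool.Agent.HWR Pool.Agent.QD Pool.Agent.QD.In WithZero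

private theorem ex_ff {F : Type*} [Field F] [Finite F] (h2 : (2 : F) ≠ 0) (h3 : (3 : F) ≠ 0)
    {α β : F} (hα : α ≠ 0) (hβ : β ≠ 0) :
    ∃ y w : F, w ≠ 0 ∧ α * y ^ 2 - β * w ^ 2 = 4 := by
  classical
  have := Fintype.ofFinite F
  have h4 : (4 : F) ≠ 0 := by
    have h : (4 : F) = 2 * 2 := by norm_num
    rw [h]
    exact mul_ne_zero h2 h2
  obtain ⟨y, w, hyw⟩ : ∃ y w : F, α * y ^ 2 - β * w ^ 2 = 4 := by
    have hodd : Fintype.card F % 2 = 1 := by
      refine FiniteField.odd_card_of_char_ne_two fun h => h2 ?_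
      have h5 := ringChar.Nat.cast_ringChar (R := F)
      rw [h] at h5
      exact_mod_cast h5
    have hf : (Polynomial.C α * Polynomial.X ^ 2 + Polynomial.C 0 * Polynomial.X +
        Polynomial.C (-4) : Polynomial F).degree = 2 := Polynomial.degree_quadratic hα
    have hg : (Polynomial.C (-β) * Polynomial.X ^ 2 + Polynomial.C 0 * Polynomial.X +
        Polynomial.C 0 : Polynomial F).degree = 2 :=
      Polynomial.degree_quadratic (neg_ne_zero.2 hβ)
    obtain ⟨y, w, h⟩ := FiniteField.exists_root_sum_quadratic hf hg hodd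
    refine ⟨y, w, ?_⟩
    simp only [Polynomial.eval_add, Polynomial.eval_mul, Polynomial.eval_C, Polynomial.eval_pow,
      Polynomial.eval_X] at h
    linear_combination h
  by_cases hw : w = 0
  · subst hw
    have hy0 : y ≠ 0 := by
      rintro rfl
      apply h4
      rw [← hyw]
      ring
    have hy : α * y ^ 2 = 4 := by
      rw [← hyw]
      ring
    by_cases hab : α = β
    · subst hab
      have hu : 3 * (-(4 * y) / 3) = -(4 * y) := mul_div_cancel₀ _ h3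
      have hu0 : -(4 * y) / 3 ≠ 0 := div_ne_zero (neg_ne_zero.2 (mul_ne_zero h4 hy0)) h3
      generalize -(4 * y) / 3 = u at hu hu0
      refine ⟨y + 2 * u, u, hu0, ?_⟩
      linear_combination hy + α * u * hu
    · have hab' : α - β ≠ 0 := sub_ne_zero.2 hab
      have hu : (α - β) * (-(2 * α * y) / (α - β)) = -(2 * α * y) := mul_div_cancel₀ _ hab'
      have hu0 : -(2 * α * y) / (α - β) ≠ 0 :=
        div_ne_zero (neg_ne_zero.2 (mul_ne_zero (mul_ne_zero h2 hα) hy0)) hab'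
      generalize -(2 * α * y) / (α - β) = u at hu hu0
      refine ⟨y + u, u, hu0, ?_⟩
      linear_combination hy + u * hu
  · exact ⟨y, w, hw, hyw⟩

private theorem ex_near (F : Type) [Field F] [NumberField F] (T : Finset ℕ) (s : 𝓞 F)
    (w : HeightOneSpectrum (𝓞 F)) (hw : ¬ Away F T w) (α : Fˣ)
    (hα : (α : F) = 1 + 4 * ((∏ p ∈ T, p : ℕ) : F) * algebraMap (𝓞 F) F s) : LSq w α := by
  apply LSq_of_close
  unfold closeOne
  have h1 : (α : F) - 1 = algebraMap (𝓞 F) F (2 * 2 * (((∏ p ∈ T, p : ℕ) : 𝓞 F) * s)) := by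
    rw [hα]
    simp only [map_mul, map_ofNat, map_natCast]
    ring
  rw [h1, HeightOneSpectrum.valuation_of_algebraMap, HeightOneSpectrum.intValuation_le_pow_iff_mem]
  have h2 := two_mem_pow w
  have h3 : ((∏ p ∈ T, p : ℕ) : 𝓞 F) ∈ w.asIdeal := by
    unfold Away at hw
    push Not at hw
    obtain ⟨p, hp, hpw⟩ := hw
    obtain ⟨k, hk⟩ := Finset.dvd_prod_of_mem (fun p : ℕ => p) hp
    rw [hk, Nat.cast_mul]
    exact Ideal.mul_mem_right _ _ hpw
  have h4 : 2 * e2 w + 1 = e2 w + e2 w + 1 := by ring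
  rw [h4, pow_succ, pow_add]
  exact Ideal.mul_mem_mul (Ideal.mul_mem_mul h2 h2) (Ideal.mul_mem_right _ _ h3)

private theorem ex_lift {K : Type} [Field K] [NumberField K] (v : HeightOneSpectrum (𝓞 K))
    (z : 𝓞 K ⧸ v.asIdeal) : ∃ y : 𝓞 K, y ≠ 0 ∧ Ideal.Quotient.mk v.asIdeal y = z := by
  obtain ⟨y, hy⟩ := Ideal.Quotient.mk_surjective z
  by_cases h : y = 0
  · obtain ⟨u, hu, hu0⟩ := Submodule.exists_mem_ne_zero_of_ne_bot v.ne_bot
    refine ⟨u, hu0, ?_⟩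
    rw [← hy, h, map_zero, Ideal.Quotient.eq_zero_iff_mem]
    exact hu
  · exact ⟨y, h, hy⟩

private theorem ex_int (K : Type) [Field K] [NumberField K] (T : Finset ℕ)
    (hTp : ∀ p ∈ T, p.Prime) (h2 : 2 ∈ T) (h3 : 3 ∈ T) (A B : 𝓞 K) (hA : A ≠ 0) (hB : B ≠ 0)
    (x : Kˣ) (hxB : (x : K) = algebraMap (𝓞 K) K (-B)) (hx : ¬ IsSquare x) :
    ∃ y w : 𝓞 K, y ≠ 0 ∧ w ≠ 0 ∧ ∃ c : Kˣ, ¬ IsSquare c ∧ (c : K) = algebraMap (𝓞 K) K
      ((4 * ((∏ p ∈ T, p : ℕ) : 𝓞 K) * (((∏ p ∈ T, p : ℕ) : 𝓞 K) * (A * y ^ 2 - B * w ^ 2)) - 1) ^ 2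
        - B * (4 * ((∏ p ∈ T, p : ℕ) : 𝓞 K) * w) ^ 2) := by
  classical
  obtain ⟨v, hvS, hv⟩ := exists_inert ((not_away_finite K T hTp).toFinset ∪
    (finite_mem (A * B) (mul_ne_zero hA hB)).toFinset) x hx
  rw [Finset.mem_union, not_or, Set.Finite.mem_toFinset, Set.Finite.mem_toFinset] at hvS
  have haw : Away K T v := by
    by_contra h
    exact hvS.1 h
  have hAB : A * B ∉ v.asIdeal := fun h => hvS.2 h
  have hAv : A ∉ v.asIdeal := fun h => hAB (Ideal.mul_mem_right _ _ h)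
  have hBv : B ∉ v.asIdeal := fun h => hAB (Ideal.mul_mem_left _ _ h)
  obtain ⟨-, hns⟩ := uK_eq_neg_one_iff.1 hv
  have hmax : v.asIdeal.IsMaximal := v.isMaximal
  let _ : Field (𝓞 K ⧸ v.asIdeal) := Ideal.Quotient.field v.asIdeal
  have : Finite (𝓞 K ⧸ v.asIdeal) := Ideal.finiteQuotientOfFreeOfNeBot v.asIdeal v.ne_bot
  set P : 𝓞 K := ((∏ p ∈ T, p : ℕ) : 𝓞 K) with hP
  have hmk : ∀ z : 𝓞 K, z ∉ v.asIdeal → Ideal.Quotient.mk v.asIdeal z ≠ 0 := by
    intro z hz h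
    exact hz (Ideal.Quotient.eq_zero_iff_mem.1 h)
  have h2v : (2 : 𝓞 K) ∉ v.asIdeal := by
    have h := haw 2 h2
    exact_mod_cast h
  have h3v : (3 : 𝓞 K) ∉ v.asIdeal := by
    have h := haw 3 h3
    exact_mod_cast h
  have hPv : P ∉ v.asIdeal := by
    rw [hP, Nat.cast_prod]
    intro h
    obtain ⟨p, hp, hpv⟩ := (Ideal.IsPrime.prod_mem_iff (hp := v.isPrime)).1 h
    exact haw p hp hpv
  have h2k : (2 : 𝓞 K ⧸ v.asIdeal) ≠ 0 := by
    have h := hmk 2 h2v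
    rwa [map_ofNat] at h
  have h3k : (3 : 𝓞 K ⧸ v.asIdeal) ≠ 0 := by
    have h := hmk 3 h3v
    rwa [map_ofNat] at h
  have hPk := hmk P hPv
  obtain ⟨Y, W, hW, hYW⟩ := ex_ff h2k h3k (hmk A hAv) (hmk B hBv)
  set π := Ideal.Quotient.mk v.asIdeal with hπ
  have h4P : (4 * π P : 𝓞 K ⧸ v.asIdeal) ≠ 0 := by
    refine mul_ne_zero ?_ hPk
    have h : (4 : 𝓞 K ⧸ v.asIdeal) = 2 * 2 := by norm_num
    rw [h]
    exact mul_ne_zero h2k h2k
  obtain ⟨y, hy0, hy⟩ := ex_lift v (Y / (4 * π P))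
  obtain ⟨w, hw0, hw⟩ := ex_lift v (W / (4 * π P))
  have hy' : π y * (4 * π P) = Y := by
    rw [show π y = Y / (4 * π P) from hy]
    exact div_mul_cancel₀ _ h4P
  have hw' : π w * (4 * π P) = W := by
    rw [show π w = W / (4 * π P) from hw]
    exact div_mul_cancel₀ _ h4P
  set z : 𝓞 K := 4 * P * (P * (A * y ^ 2 - B * w ^ 2)) - 1 with hz
  have hzv : z ∈ v.asIdeal := by
    rw [← Ideal.Quotient.eq_zero_iff_mem]
    have h4 : (4 : 𝓞 K ⧸ v.asIdeal) * π z = 0 := by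
      rw [hz]
      simp only [map_sub, map_mul, map_one, map_pow, map_ofNat]
      have h5 : (4 : 𝓞 K ⧸ v.asIdeal) = π A * Y ^ 2 - π B * W ^ 2 := hYW.symm
      have h6 : (4 : 𝓞 K ⧸ v.asIdeal) * (4 * π P * (π P * (π A * π y ^ 2 - π B * π w ^ 2)) - 1) =
        π A * (π y * (4 * π P)) ^ 2 - π B * (π w * (4 * π P)) ^ 2 - 4 := by ring
      rw [h6, hy', hw', hYW, sub_self]
    have h7 : (4 : 𝓞 K ⧸ v.asIdeal) ≠ 0 := left_ne_zero_of_mul h4P
    exact (mul_eq_zero.1 h4).resolve_left h7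
  set C : 𝓞 K := z ^ 2 - B * (4 * P * w) ^ 2 with hC
  have hCv : C ∉ v.asIdeal := by
    intro h
    have h1 : B * (4 * P * w) ^ 2 ∈ v.asIdeal := by
      have h2 : B * (4 * P * w) ^ 2 = z * z - C := by
        rw [hC]
        ring
      rw [h2]
      exact Ideal.sub_mem _ (Ideal.mul_mem_left _ _ hzv) h
    rcases v.isPrime.mem_or_mem h1 with h2 | h2
    · exact hBv h2
    · have h3 := v.isPrime.mem_of_pow_mem 2 h2
      have h4 : π (4 * P * w) = 0 := Ideal.Quotient.eq_zero_iff_mem.2 h3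
      rw [map_mul, map_mul, map_ofNat, mul_comm, hw'] at h4
      exact hW h4
  have hC0 : C ≠ 0 := by
    rintro h
    exact hCv (by rw [h]; exact Ideal.zero_mem _)
  have hCK : algebraMap (𝓞 K) K C ≠ 0 := by
    rw [Ne, map_eq_zero_iff _ (IsFractionRing.injective (𝓞 K) K)]
    exact hC0
  refine ⟨y, w, hy0, hw0, Units.mk0 _ hCK, ?_, rfl⟩
  rintro ⟨κ, hκ⟩
  apply hns
  have hκ' : algebraMap (𝓞 K) K C = (κ : K) ^ 2 := by
    have h := congrArg (fun u : Kˣ => (u : K)) hκ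
    rw [Units.val_mk0, Units.val_mul] at h
    rw [h]
    ring
  have hrne : algebraMap (𝓞 K) K (4 * P * w) ≠ 0 := by
    rw [Ne, map_eq_zero_iff _ (IsFractionRing.injective (𝓞 K) K)]
    intro h
    apply hW
    rw [← hw', ← map_ofNat π 4, ← map_mul, ← map_mul, mul_comm, h, map_zero]
  refine ⟨Units.mk0 _ hrne * κ⁻¹, ?_⟩
  unfold closeOne
  have hv1 : v.valuation K (algebraMap (𝓞 K) K C) = 1 := by
    rw [HeightOneSpectrum.valuation_of_algebraMap]
    exact HeightOneSpectrum.intValuation_eq_one_iff.2 hCv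
  have he : (x : K) * ((Units.mk0 _ hrne * κ⁻¹ : Kˣ) : K) ^ 2 - 1 =
      - (algebraMap (𝓞 K) K z ^ 2 / algebraMap (𝓞 K) K C) := by
    have hκ0 : (κ : K) ≠ 0 := κ.ne_zero
    rw [Units.val_mul, Units.val_mk0, Units.val_inv_eq_inv_val, hxB, mul_pow, inv_pow, ← hκ']
    have h8 : algebraMap (𝓞 K) K C = algebraMap (𝓞 K) K z ^ 2 -
        algebraMap (𝓞 K) K B * algebraMap (𝓞 K) K (4 * P * w) ^ 2 := by
      rw [hC, map_sub, map_pow, map_mul, map_pow]
    rw [map_neg]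
    field_simp
    rw [h8]
    ring
  rw [he, Valuation.map_neg, map_div₀, hv1, div_one, map_pow]
  have hz1 : v.valuation K (algebraMap (𝓞 K) K z) ≤ exp (-((1 : ℕ) : ℤ)) := by
    rw [HeightOneSpectrum.valuation_of_algebraMap, HeightOneSpectrum.intValuation_le_pow_iff_mem,
      pow_one]
    exact hzv
  have hz2 : v.valuation K (algebraMap (𝓞 K) K z) ≤ 1 := by
    rw [HeightOneSpectrum.valuation_of_algebraMap]
    exact v.intValuation_le_one z
  rw [pow_two]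
  calc v.valuation K (algebraMap (𝓞 K) K z) * v.valuation K (algebraMap (𝓞 K) K z)
      ≤ v.valuation K (algebraMap (𝓞 K) K z) * 1 := mul_le_mul' le_rfl hz2
    _ ≤ _ := by
      rw [mul_one]
      exact hz1

/-- `c` is a norm from `K(√a)` of an element near `1` at the places over `T` -/
def Near (T : Finset ℕ) {K : Type} [Field K] [NumberField K] (a c : Kˣ) : Prop :=
  ∃ X Y : K, Y ≠ 0 ∧ (c : K) = X ^ 2 - (a : K) * Y ^ 2 ∧
    ∀ (F : Type) [Field F] [NumberField F] [Algebra K F] (θ : F),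
      θ ^ 2 = algebraMap K F (a : K) →
      ∀ α : Fˣ, (α : F) = algebraMap K F X + algebraMap K F Y * θ →
        ∀ w : HeightOneSpectrum (𝓞 F), ¬ Away F T w → LSq w α

private theorem ex_near2 {K : Type} [Field K] [NumberField K] (T : Finset ℕ)
    (hTp : ∀ p ∈ T, p.Prime) (A : 𝓞 K) (a r c : Kˣ)
    (hA : (a : K) * (r : K) ^ 2 = algebraMap (𝓞 K) K A) (s1 s2 : 𝓞 K) (hs2 : s2 ≠ 0)
    (hc : (c : K) = (1 + 4 * ((∏ p ∈ T, p : ℕ) : K) * algebraMap (𝓞 K) K s1) ^ 2 -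
      algebraMap (𝓞 K) K A * (4 * ((∏ p ∈ T, p : ℕ) : K) * algebraMap (𝓞 K) K s2) ^ 2) :
    Near T a c := by
  have hP : ((∏ p ∈ T, p : ℕ) : K) ≠ 0 := by
    rw [Ne, Nat.cast_eq_zero, Finset.prod_eq_zero_iff]
    rintro ⟨p, hp, h⟩
    exact (hTp p hp).ne_zero h
  refine ⟨1 + 4 * ((∏ p ∈ T, p : ℕ) : K) * algebraMap (𝓞 K) K s1,
    4 * ((∏ p ∈ T, p : ℕ) : K) * algebraMap (𝓞 K) K s2 * r, ?_, ?_, ?_⟩
  · refine mul_ne_zero (mul_ne_zero (mul_ne_zero (show (4 : K) ≠ 0 by norm_num) hP) ?_) r.ne_zero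
    rw [Ne, map_eq_zero_iff _ (IsFractionRing.injective (𝓞 K) K)]
    exact hs2
  · rw [hc, ← hA]
    ring
  · intro F _ _ _ θ hθ α hα w hw
    have h1 : IsIntegral ℤ (algebraMap K F (r : K) * θ) := by
      refine IsIntegral.of_pow (n := 2) (by norm_num) ?_
      have h : (algebraMap K F (r : K) * θ) ^ 2 = algebraMap K F (algebraMap (𝓞 K) K A) := by
        rw [mul_pow, hθ, ← hA, map_mul, map_pow]
        ring
      rw [h]
      exact map_isIntegral_int (algebraMap K F) (RingOfIntegers.isIntegral_coe A)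
    have h2 : IsIntegral ℤ (algebraMap K F (algebraMap (𝓞 K) K s1) +
        algebraMap K F (algebraMap (𝓞 K) K s2) * (algebraMap K F (r : K) * θ)) :=
      (map_isIntegral_int (algebraMap K F) (RingOfIntegers.isIntegral_coe s1)).add
        ((map_isIntegral_int (algebraMap K F) (RingOfIntegers.isIntegral_coe s2)).mul h1)
    refine ex_near F T ⟨_, h2⟩ w hw α ?_
    rw [hα]
    have h3 : algebraMap (𝓞 F) F ⟨_, h2⟩ = algebraMap K F (algebraMap (𝓞 K) K s1) +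
        algebraMap K F (algebraMap (𝓞 K) K s2) * (algebraMap K F (r : K) * θ) := rfl
    rw [h3]
    simp only [map_add, map_mul, map_one, map_ofNat, map_natCast]
    ring

private theorem ex_common1 (K : Type) [Field K] [NumberField K] (T : Finset ℕ)
    (hTp : ∀ p ∈ T, p.Prime) (h2 : 2 ∈ T) (h3 : 3 ∈ T) (a b : Kˣ) (hb : ¬ IsSquare (-b)) :
    ∃ c : Kˣ, ¬ IsSquare c ∧ Near T a c ∧ Near T b c := by
  obtain ⟨A, r, hA0, hA, -⟩ := exists_int_mul_sq a
  obtain ⟨B, q, hB0, hB, -⟩ := exists_int_mul_sq b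
  obtain ⟨y, w, hy0, hw0, c, hc, hcv⟩ := ex_int K T hTp h2 h3 A B hA0 hB0 (-b * q ^ 2)
    (by rw [map_neg, ← hB, Units.val_mul, Units.val_neg, Units.val_pow_eq_pow_val]; ring)
    (by
      rintro ⟨u, hu⟩
      refine hb ⟨u * q⁻¹, ?_⟩
      calc -b = (-b * q ^ 2) * (q⁻¹ * q⁻¹) := by
            rw [pow_two]
            group
        _ = u * q⁻¹ * (u * q⁻¹) := by
            rw [hu]
            exact mul_mul_mul_comm u u q⁻¹ q⁻¹)
  refine ⟨c, hc, ?_, ?_⟩
  · refine ex_near2 T hTp A a r c hA (((∏ p ∈ T, p : ℕ) : 𝓞 K) * (A * y ^ 2 - B * w ^ 2)) y hy0 ?_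
    rw [hcv]
    simp only [map_sub, map_mul, map_pow, map_one, map_ofNat, map_natCast]
    ring
  · refine ex_near2 T hTp B b q c hB (-(((∏ p ∈ T, p : ℕ) : 𝓞 K) * (A * y ^ 2 - B * w ^ 2))) (-w)
      (neg_ne_zero.2 hw0) ?_
    rw [hcv]
    simp only [map_sub, map_mul, map_pow, map_one, map_ofNat, map_natCast, map_neg]
    ring

theorem exists_common (K : Type) [Field K] [NumberField K] (T : Finset ℕ)
    (hTp : ∀ p ∈ T, p.Prime) (h2 : 2 ∈ T) (h3 : 3 ∈ T) (a b : Kˣ) (hab : ¬ IsSquare (a * b)) :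
    ∃ c : Kˣ, ¬ IsSquare c ∧ Near T a c ∧ Near T b c := by
  by_cases hb : IsSquare (-b)
  · have ha : ¬ IsSquare (-a) := by
      intro ha
      apply hab
      rw [← neg_mul_neg]
      exact ha.mul hb
    obtain ⟨c, h1, h2, h3⟩ := ex_common1 K T hTp h2 h3 b a ha
    exact ⟨c, h1, h3, h2⟩
  · exact ex_common1 K T hTp h2 h3 a b hb

end Pool.Agent.TF2
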